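import Mathlib

/-!
A Dirichlet series with bounded coefficients and small partial sums extends (helper20).
-/

set_option autoImplicit false

namespace Pool.Agent.EEAH

open Filter Topology Asymptotics MeasureTheory Complex

/-- The sum of the coefficients up to `t`, zero for `t ≤ 1`. -/
noncomputable def Fs (f : ℕ → ℂ) : ℝ → ℂ :=
  Set.indicator (Set.Ioi 1) fun t => ∑ k ∈ Finset.Icc 1 ⌊t⌋₊, f k

lemma Fs_loc (f : ℕ → ℂ) : LocallyIntegrableOn (Fs f) (Set.Ioi 0) := by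
  have h1 : LocallyIntegrableOn (fun t : ℝ => (1 : ℂ) * ∑ k ∈ Finset.Icc 1 ⌊t⌋₊, f k)
      (Set.Ici 0) :=
    locallyIntegrableOn_mul_sum_Icc f le_rfl ((locallyIntegrable_const _).locallyIntegrableOn _)
  have h2 := h1.mono_set Set.Ioi_subset_Ici_self
  intro x hx
  obtain ⟨U, hU, hi⟩ := h2 x hx
  refine ⟨U, hU, ?_⟩
  have h3 : IntegrableOn (fun t : ℝ => ∑ k ∈ Finset.Icc 1 ⌊t⌋₊, f k) U := by
    simpa only [one_mul] using hi
  exact Integrable.indicator h3 measurableSet_Ioi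

lemma Fs_top {f : ℕ → ℂ} {C r : ℝ} (hO : ∀ n : ℕ, 1 ≤ n →
    ‖∑ k ∈ Finset.Icc 1 n, f k‖ ≤ C * (n : ℝ) ^ r) (hr : 0 ≤ r) :
    Fs f =O[atTop] fun t : ℝ => t ^ (-(-r)) := by
  refine IsBigO.of_bound |C| ?_
  filter_upwards [eventually_gt_atTop (1 : ℝ)] with t ht
  have h1 : Fs f t = ∑ k ∈ Finset.Icc 1 ⌊t⌋₊, f k := Set.indicator_of_mem (Set.mem_Ioi.2 ht) _
  have h2 : 1 ≤ ⌊t⌋₊ := Nat.le_floor (by simpa using ht.le)
  have h3 : ((⌊t⌋₊ : ℕ) : ℝ) ≤ t := Nat.floor_le (by linarith)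
  have h4 : ((⌊t⌋₊ : ℕ) : ℝ) ^ r ≤ t ^ r := Real.rpow_le_rpow (by positivity) h3 hr
  have h5 : 0 ≤ t ^ r := Real.rpow_nonneg (by linarith) _
  rw [h1, neg_neg, Real.norm_of_nonneg h5]
  refine (hO _ h2).trans ?_
  calc C * ((⌊t⌋₊ : ℕ) : ℝ) ^ r ≤ |C| * ((⌊t⌋₊ : ℕ) : ℝ) ^ r :=
        mul_le_mul_of_nonneg_right (le_abs_self C) (by positivity)
    _ ≤ |C| * t ^ r := mul_le_mul_of_nonneg_left h4 (abs_nonneg C)

lemma Fs_bot (f : ℕ → ℂ) (b : ℝ) : Fs f =O[𝓝[>] 0] fun t : ℝ => t ^ (-b) := by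
  have h : Fs f =ᶠ[𝓝[>] 0] fun _ => 0 := by
    have h1 : ∀ᶠ t : ℝ in 𝓝[>] 0, t < 1 :=
      nhdsWithin_le_nhds (gt_mem_nhds one_pos)
    filter_upwards [h1] with t ht
    exact Set.indicator_of_notMem (by simp only [Set.mem_Ioi, not_lt]; exact ht.le) _
  exact (isBigO_zero _ _).congr' h.symm EventuallyEq.rfl

/-- **The extension.** -/
theorem hf20 {f : ℕ → ℂ} {B C r : ℝ} (hb : ∀ n, ‖f n‖ ≤ B) (hO : ∀ n : ℕ, 1 ≤ n →
    ‖∑ k ∈ Finset.Icc 1 n, f k‖ ≤ C * (n : ℝ) ^ r) (hr : 0 ≤ r) (hr1 : r ≤ 1) :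
    ∃ G : ℂ → ℂ, DifferentiableOn ℂ G {s | r < s.re} ∧
      ∀ s : ℂ, 1 < s.re → G s = LSeries f s := by
  refine ⟨fun s => s * mellin (Fs f) (-s), ?_, ?_⟩
  · intro s hs
    have hs' : r < s.re := hs
    have h1 : DifferentiableAt ℂ (mellin (Fs f)) (-s) :=
      mellin_differentiableAt_of_isBigO_rpow (a := -r) (b := -s.re - 1) (Fs_loc f)
        (Fs_top hO hr) (by simp only [neg_re]; linarith) (Fs_bot f _)
        (by simp only [neg_re]; linarith)
    have h2 : DifferentiableAt ℂ (fun z : ℂ => mellin (Fs f) (-z)) s := by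
      have h3 : DifferentiableAt ℂ (fun z : ℂ => -z) s := differentiableAt_id.neg
      exact DifferentiableAt.comp (g := mellin (Fs f)) (f := fun z : ℂ => -z) s h1 h3
    exact (differentiableAt_id.mul h2).differentiableWithinAt
  · intro s hs
    have hS : LSeriesSummable f s :=
      LSeriesSummable_of_bounded_of_one_lt_re (m := B) (fun n _ => hb n) hs
    have hO' : (fun n : ℕ => ∑ k ∈ Finset.Icc 1 n, f k) =O[atTop] fun n : ℕ => (n : ℝ) ^ r := by
      refine IsBigO.of_bound C ?_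
      filter_upwards [eventually_ge_atTop 1] with n hn
      rw [Real.norm_of_nonneg (by positivity)]
      exact hO n hn
    rw [LSeries_eq_mul_integral f hr (lt_of_le_of_lt hr1 hs) hS hO']
    show s * mellin (Fs f) (-s) = _
    congr 1
    unfold mellin Fs
    have e : ∀ t : ℝ, ((t : ℂ) ^ (-s - 1)) •
        (Set.indicator (Set.Ioi 1) (fun t : ℝ => ∑ k ∈ Finset.Icc 1 ⌊t⌋₊, f k)) t =
        Set.indicator (Set.Ioi 1) (fun t : ℝ =>
          (∑ k ∈ Finset.Icc 1 ⌊t⌋₊, f k) * (t : ℂ) ^ (-(s + 1))) t := by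
      intro t
      by_cases ht : t ∈ Set.Ioi (1 : ℝ)
      · rw [Set.indicator_of_mem ht, Set.indicator_of_mem ht, smul_eq_mul, mul_comm]
        congr 2
        ring
      · rw [Set.indicator_of_notMem ht, Set.indicator_of_notMem ht, smul_zero]
    rw [integral_congr_ae (Eventually.of_forall e), setIntegral_indicator measurableSet_Ioi]
    congr 2
    refine Set.ext fun t => ?_
    simp only [Set.mem_inter_iff, Set.mem_Ioi]
    constructor
    · rintro ⟨_, h⟩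
      exact h
    · intro h
      exact ⟨by linarith, h⟩

/-- The coefficients supported on the primes. -/
noncomputable def ext (t : Nat.Primes → ℂ) (n : ℕ) : ℂ := if h : n.Prime then t ⟨n, h⟩ else 0

lemma ext_coe (t : Nat.Primes → ℂ) (p : Nat.Primes) : ext t (p : ℕ) = t p := by
  unfold ext
  rw [dif_pos p.2]
  rfl

lemma LSeries_ext (t : Nat.Primes → ℂ) (s : ℂ) :
    LSeries (ext t) s = ∑' p : Nat.Primes, t p * ((p : ℕ) : ℂ) ^ (-s) := by
  unfold LSeries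
  have hinj : Function.Injective (fun p : Nat.Primes => (p : ℕ)) := fun a b h => Subtype.ext h
  rw [← hinj.tsum_eq (f := fun n => LSeries.term (ext t) s n)]
  · refine tsum_congr fun p => ?_
    rw [LSeries.term_of_ne_zero p.2.ne_zero, ext_coe, Complex.cpow_neg]
    rfl
  · intro n hn
    by_contra hc
    refine hn ?_
    show LSeries.term (ext t) s n = 0
    have hnp : ¬ n.Prime := fun h => hc ⟨⟨n, h⟩, rfl⟩
    rcases eq_or_ne n 0 with h0 | h0
    · rw [h0, LSeries.term_zero]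
    · rw [LSeries.term_of_ne_zero h0]
      unfold ext
      rw [dif_neg hnp, zero_div]

/-- **The extension, sums over the primes.** -/
theorem hfPr20 {t : Nat.Primes → ℂ} {B C r : ℝ} (hb : ∀ p, ‖t p‖ ≤ B) (hO : ∀ n : ℕ, 1 ≤ n →
    ‖∑ k ∈ Finset.Icc 1 n, ext t k‖ ≤ C * (n : ℝ) ^ r) (hr : 0 ≤ r) (hr1 : r ≤ 1) :
    ∃ G : ℂ → ℂ, DifferentiableOn ℂ G {s | r < s.re} ∧
      ∀ s : ℂ, 1 < s.re → G s = ∑' p : Nat.Primes, t p * ((p : ℕ) : ℂ) ^ (-s) := by
  have hB : ∀ n, ‖ext t n‖ ≤ max B 0 := by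
    intro n
    unfold ext
    split_ifs with h
    · exact (hb _).trans (le_max_left _ _)
    · rw [norm_zero]
      exact le_max_right _ _
  obtain ⟨G, h1, h2⟩ := hf20 hB hO hr hr1
  exact ⟨G, h1, fun s hs => (h2 s hs).trans (LSeries_ext t s)⟩

end Pool.Agent.EEAH
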